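import Pool.Agent.Helper54.PT.LocG
import Pool.Agent.Helper65.TG.L6
import Pool.Agent.Helper96.TG.E01
import Pool.Agent.Helper50.TG.S01

/-!
# S2: the quadratic form on the local sets
-/

set_option autoImplicit false

namespace Pool.Agent.Helper54.PT

open Polynomial Finset Filter Topology Module Pool.Agent.Helper43.TW Pool.Agent.Helper47.BSD

section LocSTwo

variable {k : Type} [NontriviallyNormedField k] [IsUltrametricDist k] [CompleteSpace k]
  {π : k} {ι : Type} [Fintype ι] [DecidableEq ι] {a : ι → ℕ}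
  {K : Type} [Field K] {φ : K →+* k} {f : Cl 2 k →+ ZMod 2 × ZMod 2} {e : ι → K}

/-- S2: the quadratic form on the local sets (uses L6, L9, E0, S0) -/
theorem locS_quad (hk : LF 2 π) (hc : cl 2 (-1 : k) = 0) (ha : ∀ i, ¬ 2 ∣ a i)
    (hs : ¬ 2 ∣ ∑ i, a i) (hf : FC hk f) (he : ∀ i j, i ≠ j → e i ≠ e j) (i₀ : ι) (c : ZMod 2) :
    ∀ w ∈ LocS hk φ f a e i₀ c,
      qG a i₀ (fun i => ∑ m ∈ univ.erase i, f (cl 2 (φ (e i - e m)))) w = 0 := by
  rintro w ⟨D, u, hD, hDc, hu, rfl⟩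
  have hφD : φ D ≠ 0 := (map_ne_zero φ).2 hD
  have hne : ∀ i j, i ≠ j → φ (e i - e j) ≠ 0 := fun i j h =>
    (map_ne_zero φ).2 (sub_ne_zero.2 (he i j h))
  have hE : ∀ i j, i ≠ j → φ (D * e i) ≠ φ (D * e j) := fun i j h h' =>
    he i j h (mul_left_cancel₀ hD (φ.injective h'))
  obtain ⟨L, hL1, hL2⟩ := exists_lin hk hf
  -- the relation
  have hrel : ∑ i, (a i : ZMod 2) • f (u i) = 0 := by
    obtain ⟨i₁, ρ, n, h1⟩ := hu
    have h2 := congrArg f h1.rel
    rw [map_zero, map_sum] at h2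
    rw [← h2]
    exact sum_congr rfl fun i _ => (ZMod.map_smul f _ _).symm
  -- the number of indices is odd
  have hcard : ∀ i : ι, ((univ.erase i).card : ZMod 2) = 0 := by
    intro i
    have h1 : ∑ j, a j ≡ Fintype.card ι [MOD 2] := by
      rw [← ZMod.natCast_eq_natCast_iff]
      push_cast
      have h2 : ∀ j, (a j : ZMod 2) = 1 := fun j => by
        rw [ZMod.natCast_eq_one_iff_odd]
        exact Nat.odd_iff.2 (Nat.two_dvd_ne_zero.1 (ha j))
      rw [sum_congr rfl fun j _ => h2 j, sum_const, card_univ, nsmul_eq_mul, mul_one]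
    rw [card_erase_of_mem (mem_univ i), card_univ, ZMod.natCast_eq_zero_iff]
    have h3 : Fintype.card ι % 2 = 1 := by
      rw [← h1]
      exact Nat.two_dvd_ne_zero.1 hs
    have h4 : 0 < Fintype.card ι := Fintype.card_pos_iff.2 ⟨i⟩
    omega
  have h0 := ptData_quad hk hc ha hE hu
  have h1 := congrArg (fun t => L (f t)) h0
  simp only [map_zero, map_sum, map_add] at h1
  rw [qG, ← h1]
  refine sum_congr rfl fun i _ => ?_
  rw [exG_mkG (ha i₀) hrel i, hL2 rfl]
  congr 1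
  have h3 : ∑ j ∈ univ.erase i, cl 2 (φ (D * e i) - φ (D * e j)) =
      ∑ j ∈ univ.erase i, cl 2 (φ (e i - e j)) := by
    have h4 : ∀ j ∈ univ.erase i, cl 2 (φ (D * e i) - φ (D * e j)) =
        cl 2 (φ D) + cl 2 (φ (e i - e j)) := by
      intro j hj
      rw [← cl_mul hφD (hne i j (ne_of_mem_erase hj).symm), ← map_mul, ← map_sub, mul_sub]
    rw [sum_congr rfl h4, sum_add_distrib, sum_const, ← Nat.cast_smul_eq_nsmul (ZMod 2),
      hcard i, zero_smul, zero_add]
  rw [h3, hL1, ← map_sum f]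
  generalize pzG (f (u i)) (f (∑ j ∈ univ.erase i, cl 2 (φ (e i - e j)))) = t
  revert t
  decide

end LocSTwo

end Pool.Agent.Helper54.PT
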