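import Pool.Agent.Helper54.PT.LocG

/-!
# S5: the invariants of the quadratic form
-/

set_option autoImplicit false

namespace Pool.Agent.Helper23.TG

open Finset Pool.Agent.Helper54.PT Pool.Agent.Helper43.TW Pool.Agent.Helper47.BSD

theorem sum_off {ι A : Type*} [DecidableEq ι] [AddCommGroup A] (F : ι → ι → A) (s : Finset ι)
    (h : ∀ i ∈ s, ∀ m ∈ s, i ≠ m → F i m + F m i = 0) : ∑ i ∈ s, ∑ m ∈ s.erase i, F i m = 0 := by
  induction s using Finset.induction_on with
  | empty => rw [sum_empty]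
  | insert a s ha ih =>
    rw [sum_insert ha, erase_insert ha]
    have h1 : ∀ i ∈ s, ∑ m ∈ (insert a s).erase i, F i m = F i a + ∑ m ∈ s.erase i, F i m := by
      intro i hi
      have hia : a ≠ i := fun h => ha (h ▸ hi)
      rw [erase_insert_of_ne hia, sum_insert (fun h => ha (mem_of_mem_erase h))]
    rw [sum_congr rfl h1, sum_add_distrib, ih fun i hi m hm him =>
      h i (mem_insert_of_mem hi) m (mem_insert_of_mem hm) him, add_zero, ← sum_add_distrib]
    refine sum_eq_zero fun i hi => ?_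
    exact h a (mem_insert_self a s) i (mem_insert_of_mem hi) fun h => ha (h ▸ hi)

theorem two2 (x : ZMod 2) : x + x = 0 := by
  revert x
  decide

/-- product of two sums -/
theorem prod_sum {ι : Type*} [DecidableEq ι] (x y : ι → ZMod 2) (s : Finset ι) :
    (∑ i ∈ s, x i) * ∑ m ∈ s, y m = ∑ i ∈ s, x i * y i + ∑ i ∈ s, ∑ m ∈ s.erase i, x i * y m := by
  rw [sum_mul_sum, ← sum_add_distrib]
  refine sum_congr rfl fun i hi => ?_
  rw [add_sum_erase s (fun m => x i * y m) hi]

/-- the combinatorial part -/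
theorem quad_zero {ι : Type*} [DecidableEq ι] (z : ι → ι → ZMod 2 × ZMod 2)
    (hs : ∀ i m, i ≠ m → z i m = z m i)
    (rel : ∀ a i m, a ≠ i → a ≠ m → i ≠ m →
      pzG (z a i) (z a m) + pzG (z i m) (z i a) + pzG (z m i) (z m a) = 0) (s : Finset ι) :
    ∑ i ∈ s, (∑ m ∈ s.erase i, z i m).1 * (∑ m ∈ s.erase i, z i m).2 = 0 := by
  induction s using Finset.induction_on with
  | empty => rw [sum_empty]
  | insert a s ha ih =>
    rw [sum_insert ha, erase_insert ha]
    have h1 : ∀ i ∈ s, (∑ m ∈ (insert a s).erase i, z i m).1 *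
        (∑ m ∈ (insert a s).erase i, z i m).2 =
        (∑ m ∈ s.erase i, z i m).1 * (∑ m ∈ s.erase i, z i m).2 + (z i a).1 * (z i a).2 +
        ∑ m ∈ s.erase i, ((z i a).1 * (z i m).2 + (z i a).2 * (z i m).1) := by
      intro i hi
      have hia : a ≠ i := fun h => ha (h ▸ hi)
      rw [erase_insert_of_ne hia, sum_insert (fun h => ha (mem_of_mem_erase h)),
        sum_add_distrib, ← mul_sum, ← mul_sum, Prod.fst_add, Prod.snd_add, Prod.fst_sum,
        Prod.snd_sum]
      ring
    rw [sum_congr rfl h1, sum_add_distrib, sum_add_distrib, ih, zero_add, Prod.fst_sum,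
      Prod.snd_sum, prod_sum]
    have h2 : ∑ i ∈ s, (z a i).1 * (z a i).2 = ∑ i ∈ s, (z i a).1 * (z i a).2 :=
      sum_congr rfl fun i hi => by rw [hs a i fun h => ha (h ▸ hi)]
    rw [h2]
    have h3 : ∑ i ∈ s, ∑ m ∈ s.erase i, ((z a i).1 * (z a m).2 +
        ((z i a).1 * (z i m).2 + (z i a).2 * (z i m).1)) = 0 := by
      refine sum_off _ s fun i hi m hm him => ?_
      have hai : a ≠ i := fun h => ha (h ▸ hi)
      have ham : a ≠ m := fun h => ha (h ▸ hm)
      have h4 := rel a i m hai ham him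
      rw [hs m i him.symm] at h4 ⊢
      rw [hs i a hai.symm, hs m a ham.symm] at h4 ⊢
      generalize z a i = u at h4 ⊢
      generalize z a m = v at h4 ⊢
      generalize z i m = w at h4 ⊢
      revert h4
      obtain ⟨u1, u2⟩ := u
      obtain ⟨v1, v2⟩ := v
      obtain ⟨w1, w2⟩ := w
      unfold pzG
      revert u1 u2 v1 v2 w1 w2
      decide
    have h5 : ∑ i ∈ s, ∑ m ∈ s.erase i, ((z a i).1 * (z a m).2 +
        ((z i a).1 * (z i m).2 + (z i a).2 * (z i m).1)) =
        ∑ i ∈ s, ∑ m ∈ s.erase i, (z a i).1 * (z a m).2 + ∑ i ∈ s, ∑ m ∈ s.erase i,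
          ((z i a).1 * (z i m).2 + (z i a).2 * (z i m).1) := by
      rw [← sum_add_distrib]
      exact sum_congr rfl fun i _ => sum_add_distrib
    rw [h5] at h3
    generalize ∑ i ∈ s, (z i a).1 * (z i a).2 = A at *
    generalize ∑ i ∈ s, ∑ m ∈ s.erase i, (z a i).1 * (z a m).2 = B at *
    generalize ∑ i ∈ s, ∑ m ∈ s.erase i, ((z i a).1 * (z i m).2 + (z i a).2 * (z i m).1) = C at *
    rw [show A + B + (A + C) = (A + A) + (B + C) by ring, h3, two2, add_zero]

end Pool.Agent.Helper23.TG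

namespace Pool.Agent.Helper54.PT

open Polynomial Finset Filter Topology Module Pool.Agent.Helper43.TW Pool.Agent.Helper47.BSD
open Pool.Agent.Helper23.TG

section LocSTwo

variable {k : Type} [NontriviallyNormedField k] [IsUltrametricDist k] [CompleteSpace k]
  {π : k} {ι : Type} [Fintype ι] [DecidableEq ι] {a : ι → ℕ}
  {K : Type} [Field K] {φ : K →+* k} {f : Cl 2 k →+ ZMod 2 × ZMod 2} {e : ι → K}

/-- S5: the invariants of the quadratic form -/
theorem g_inv (hk : LF 2 π) (hc : cl 2 (-1 : k) = 0) (hf : FC hk f)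
    (he : ∀ i j, i ≠ j → e i ≠ e j) :
    ∑ i, ∑ m ∈ univ.erase i, f (cl 2 (φ (e i - e m))) = 0 ∧
      ∑ i, (∑ m ∈ univ.erase i, f (cl 2 (φ (e i - e m)))).1 *
        (∑ m ∈ univ.erase i, f (cl 2 (φ (e i - e m)))).2 = 0 := by
  have hL : ∃ L : ZMod 2 × ZMod 2 →+ ZMod 2, ∀ x y, L (f (tm hk x y)) = pzG (f x) (f y) := by
    rcases hf.ord with h | h
    · refine ⟨AddMonoidHom.snd _ _, fun x y => ?_⟩
      rw [tm, map_sub, ZMod.map_smul f, ZMod.map_smul f, ← h, ← h]
      generalize f x = u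
      generalize f y = v
      obtain ⟨u1, u2⟩ := u
      obtain ⟨v1, v2⟩ := v
      revert u1 u2 v1 v2
      unfold pzG
      decide
    · refine ⟨AddMonoidHom.fst _ _, fun x y => ?_⟩
      have hx : nu hk x = -(f x).2 := by rw [h x, neg_neg]
      have hy : nu hk y = -(f y).2 := by rw [h y, neg_neg]
      rw [tm, map_sub, ZMod.map_smul f, ZMod.map_smul f, hx, hy]
      generalize f x = u
      generalize f y = v
      obtain ⟨u1, u2⟩ := u
      obtain ⟨v1, v2⟩ := v
      revert u1 u2 v1 v2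
      unfold pzG
      decide
  obtain ⟨L, hL⟩ := hL
  have hne : ∀ i m, i ≠ m → φ (e i - e m) ≠ 0 := fun i m h =>
    (map_ne_zero φ).2 (sub_ne_zero.2 (he i m h))
  have hs : ∀ i m, i ≠ m → f (cl 2 (φ (e i - e m))) = f (cl 2 (φ (e m - e i))) := by
    intro i m h
    rw [map_sub, map_sub, cl_sub_comm hc fun h' => he i m h (φ.injective h')]
  refine ⟨sum_off _ univ fun i _ m _ him => ?_, quad_zero (fun i m => f (cl 2 (φ (e i - e m)))) hs
    (fun a i m hai ham him => ?_) univ⟩
  · rw [hs i m him]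
    generalize f (cl 2 (φ (e m - e i))) = u
    obtain ⟨u1, u2⟩ := u
    exact Prod.ext (two2 u1) (two2 u2)
  · have h1 := tm_st (ℓ := 2) Nat.prime_two hk hc (hne a i hai) (hne a m ham) (fun h' => by
      have h2 := φ.injective h'
      exact he i m him (sub_right_injective h2))
    rw [← map_sub, sub_sub_sub_cancel_left] at h1
    have h2 := congrArg (fun t => L (f t)) h1
    simp only [map_add, hL] at h2
    rw [hs i a hai.symm, hs m a ham.symm, hs i m him]
    generalize f (cl 2 (φ (e a - e i))) = u at h2 ⊢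
    generalize f (cl 2 (φ (e a - e m))) = v at h2 ⊢
    generalize f (cl 2 (φ (e m - e i))) = w at h2 ⊢
    revert h2
    obtain ⟨u1, u2⟩ := u
    obtain ⟨v1, v2⟩ := v
    obtain ⟨w1, w2⟩ := w
    unfold pzG
    revert u1 u2 v1 v2 w1 w2
    decide

end LocSTwo

end Pool.Agent.Helper54.PT
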